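import Pool.Agent.W114.HL.Stm
import Pool.Agent.H951R4.OD.A1
import Pool.Agent.H951R4.OD.M

/-!
# Project HL, task CC: the count for a given cofactor with an exact prime divisor `t`
-/

set_option autoImplicit false

namespace Pool.Agent.W948.HL.CC

open Finset Pool.Agent.W114.HL
open Pool.Agent.H951R4.OD (ch PI Ex mert_le sum_sq_inv ch_eq_neg_one_iff)

theorem mem_PI {y z q : ℕ} : q ∈ PI y z ↔ (y < q ∧ q ≤ z) ∧ q.Prime := by
  unfold PI
  rw [mem_filter, mem_Ioc]

theorem sum_inv_le (S : Finset ℕ) (hS : ∀ q ∈ S, 2 ≤ q) :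
    ∑ q ∈ S, (1 : ℝ) / q ≤ Real.log (1 + S.card) := by
  induction S using Finset.induction_on_max with
  | empty => simp
  | insert M S hM ih =>
    have hMS : M ∉ S := fun h => lt_irrefl _ (hM M h)
    rw [Finset.sum_insert hMS, Finset.card_insert_of_notMem hMS]
    have h1 := ih (fun q hq => hS q (Finset.mem_insert_of_mem hq))
    have h2 : S ⊆ Ico 2 M := fun q hq =>
      Finset.mem_Ico.2 ⟨hS q (Finset.mem_insert_of_mem hq), hM q hq⟩
    have h3 := Finset.card_le_card h2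
    rw [Nat.card_Ico] at h3
    have h4 := hS M (Finset.mem_insert_self _ _)
    have h5 : S.card + 2 ≤ M := by omega
    have h6 : (S.card : ℝ) + 2 ≤ M := by exact_mod_cast h5
    have h7 : (0 : ℝ) ≤ S.card := Nat.cast_nonneg _
    have h8 : (1 : ℝ) / M ≤ 1 / (S.card + 2) := one_div_le_one_div_of_le (by linarith) h6
    have h9 := Real.one_sub_inv_le_log_of_pos
      (show (0 : ℝ) < ((S.card : ℝ) + 2) / (1 + S.card) by positivity)
    rw [Real.log_div (by positivity) (by positivity)] at h9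
    have h10 : 1 - (((S.card : ℝ) + 2) / (1 + S.card))⁻¹ = 1 / (S.card + 2) := by
      field_simp
      ring
    rw [h10] at h9
    have h11 : (1 : ℝ) + ((S.card + 1 : ℕ) : ℝ) = (S.card : ℝ) + 2 := by push_cast; ring
    rw [h11]
    linarith

theorem per_mul {D : Dat} (h : Ax D) {q : ℕ} (hq : q.Prime) (n j : ℕ) :
    D.T q (n + q ^ 2 * j) ↔ D.T q n := by
  induction j with
  | zero => simp
  | succ j ih =>
    rw [Nat.mul_succ, ← add_assoc, h.per q _ hq, ih]

theorem cnt_mul {q : ℕ} (hq : 0 < q) :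
    ∑ n ∈ range (q ^ 2), (if q ∣ n then (1 : ℝ) else 0) = q := by
  rw [← Finset.sum_filter, Finset.sum_const, nsmul_eq_mul, mul_one]
  have h1 : (range (q ^ 2)).filter (fun n => q ∣ n) = (range q).image (q * ·) := by
    ext n
    simp only [mem_filter, mem_range, mem_image]
    constructor
    · rintro ⟨h1, c, rfl⟩
      refine ⟨c, ?_, rfl⟩
      rw [pow_two] at h1
      exact lt_of_mul_lt_mul_left h1 (Nat.zero_le _)
    · rintro ⟨c, h1, rfl⟩
      refine ⟨?_, dvd_mul_right _ _⟩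
      rw [pow_two]; exact Nat.mul_lt_mul_of_pos_left h1 hq
  rw [h1, Finset.card_image_of_injective _ (fun a b hab => Nat.eq_of_mul_eq_mul_left hq hab),
    card_range]

/-- the bad primes -/
def BD (D : Dat) (y t q : ℕ) : Prop := y < q ∧ ¬ q ∣ D.c0 ∧ ch (t : ℤ) q = -1

open scoped Classical in
/-- the sieving functions -/
noncomputable def hh (D : Dat) (y a t q n : ℕ) : ℝ :=
  if q ∣ n ∨ (BD D y t q ∧ D.T q (a * n)) then 1 else 0

theorem hh01 (D : Dat) (y a t q n : ℕ) : hh D y a t q n = 0 ∨ hh D y a t q n = 1 := by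
  unfold hh
  split_ifs <;> simp

open scoped Classical in
theorem hh_per {D : Dat} (h : Ax D) (y a t n : ℕ) {q : ℕ} (hq : q.Prime) :
    hh D y a t q (n + q ^ 2) = hh D y a t q n := by
  unfold hh
  have h1 : q ∣ n + q ^ 2 ↔ q ∣ n := Nat.dvd_add_left (dvd_pow_self q (by norm_num))
  have h2 : D.T q (a * (n + q ^ 2)) ↔ D.T q (a * n) := by
    have e : a * (n + q ^ 2) = a * n + q ^ 2 * a := by ring
    rw [e]
    exact per_mul h hq _ _
  exact if_congr (or_congr h1 (and_congr Iff.rfl h2)) rfl rfl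

/-- the mean -/
noncomputable def mean (D : Dat) (y a t q : ℕ) : ℝ :=
  (∑ n ∈ range (q ^ 2), hh D y a t q n) / (q : ℝ) ^ 2

open scoped Classical in
theorem mean_eq1 (mn : S_MN) {D : Dat} (h : Ax D) (y a t : ℕ) {q : ℕ} (hq : q.Prime)
    (hb : ¬ (BD D y t q ∧ ¬ q ∣ a)) : mean D y a t q = 1 / q := by
  have e1 : ∀ n ∈ range (q ^ 2), hh D y a t q n = if q ∣ n then (1 : ℝ) else 0 := by
    intro n _
    unfold hh
    have : (q ∣ n ∨ (BD D y t q ∧ D.T q (a * n))) ↔ q ∣ n := by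
      constructor
      · rintro (h1 | ⟨h1, h2⟩)
        · exact h1
        · exfalso
          have h3 := (mn D h q a hq h1.2.1).1 _ h2
          exact hb ⟨h1, fun h4 => h3 (dvd_mul_of_dvd_left h4 _)⟩
      · exact Or.inl
    simp only [this]
  have hq0 : (0 : ℝ) < q := by exact_mod_cast hq.pos
  unfold mean
  rw [Finset.sum_congr rfl e1, cnt_mul hq.pos]
  field_simp

open scoped Classical in
theorem mean_eq2 (mn : S_MN) {D : Dat} (h : Ax D) (y a t : ℕ) {q : ℕ} (hq : q.Prime)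
    (hb : BD D y t q) : mean D y a t q = 1 / q +
      (∑ n ∈ range (q ^ 2), (if D.T q (a * n) then (1 : ℝ) else 0)) / (q : ℝ) ^ 2 := by
  have e1 : ∀ n ∈ range (q ^ 2), hh D y a t q n = (if q ∣ n then (1 : ℝ) else 0) +
      (if D.T q (a * n) then (1 : ℝ) else 0) := by
    intro n _
    unfold hh
    by_cases h2 : D.T q (a * n)
    · have h3 := (mn D h q a hq hb.2.1).1 _ h2
      have h4 : ¬ q ∣ n := fun h4 => h3 (dvd_mul_of_dvd_right h4 _)
      rw [if_pos (Or.inr ⟨hb, h2⟩), if_neg h4, if_pos h2, zero_add]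
    · have : (q ∣ n ∨ (BD D y t q ∧ D.T q (a * n))) ↔ q ∣ n := by
        constructor
        · rintro (h1 | ⟨_, h1⟩)
          · exact h1
          · exact absurd h1 h2
        · exact Or.inl
      rw [if_neg h2, add_zero]
      simp only [this]
  have hq0 : (0 : ℝ) < q := by exact_mod_cast hq.pos
  unfold mean
  rw [Finset.sum_congr rfl e1, Finset.sum_add_distrib, cnt_mul hq.pos, add_div]
  congr 1
  field_simp

open scoped Classical in
theorem mean_low (mn : S_MN) {D : Dat} (h : Ax D) (y a t : ℕ) {q : ℕ} (hq : q.Prime) :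
    1 / (q : ℝ) + (if BD D y t q then D.ρ q / q else 0) - (if q ∣ a then D.κ * (1 / q) else 0) -
      D.κ * (1 / (q : ℝ) ^ 2) ≤ mean D y a t q := by
  have hq0 : (0 : ℝ) < q := by exact_mod_cast hq.pos
  have hκ : 0 ≤ D.κ := by linarith [h.κ1]
  have hk2 : 0 ≤ D.κ * (1 / (q : ℝ) ^ 2) := by positivity
  have hk1 : 0 ≤ D.κ * (1 / (q : ℝ)) := by positivity
  have hr := h.rho_up q
  have hr1 : D.ρ q / q ≤ D.κ * (1 / (q : ℝ)) := by
    rw [mul_one_div]
    exact div_le_div_of_nonneg_right hr.2 hq0.le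
  by_cases hb : BD D y t q
  · by_cases ha : q ∣ a
    · rw [mean_eq1 mn h y a t hq (fun hh => hh.2 ha), if_pos hb, if_pos ha]
      linarith
    · rw [mean_eq2 mn h y a t hq hb, if_pos hb, if_neg ha]
      have hcop : Nat.Coprime a q := ((Nat.Prime.coprime_iff_not_dvd hq).2 ha).symm
      have h1 := (abs_le.1 ((mn D h q a hq hb.2.1).2 hcop)).1
      rw [mul_one_div]
      linarith
  · rw [mean_eq1 mn h y a t hq (fun hh => hb hh.1), if_neg hb]
    split_ifs <;> linarith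

open scoped Classical in
theorem mean_up (mn : S_MN) {D : Dat} (h : Ax D) (y a t : ℕ) {q : ℕ} (hq : q.Prime) :
    mean D y a t q ≤ (2 * D.κ + 1) / q := by
  have hq0 : (0 : ℝ) < q := by exact_mod_cast hq.pos
  have hq1 : (1 : ℝ) ≤ q := by exact_mod_cast hq.one_lt.le
  have hκ : 0 ≤ D.κ := by linarith [h.κ1]
  have hk1 : 0 ≤ D.κ / (q : ℝ) := by positivity
  have e : (2 * D.κ + 1) / (q : ℝ) = 1 / q + D.κ / q + D.κ / q := by ring
  have hk2 : D.κ / (q : ℝ) ^ 2 ≤ D.κ / q := by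
    apply div_le_div_of_nonneg_left hκ hq0
    nlinarith
  rw [e]
  by_cases hb : BD D y t q ∧ ¬ q ∣ a
  · rw [mean_eq2 mn h y a t hq hb.1]
    have hcop : Nat.Coprime a q := ((Nat.Prime.coprime_iff_not_dvd hq).2 hb.2).symm
    have h1 := (abs_le.1 ((mn D h q a hq hb.1.2.1).2 hcop)).2
    have hr1 : D.ρ q / q ≤ D.κ / (q : ℝ) :=
      div_le_div_of_nonneg_right (h.rho_up q).2 hq0.le
    linarith
  · rw [mean_eq1 mn h y a t hq hb]
    linarith

open scoped Classical in
/-- the elements of the set are small or sifted -/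
theorem sift {D : Dat} (h : Ax D) (X a t y z : ℕ) (hE : Ex D.c0 a t) :
    ({p : ℕ | p.Prime ∧ t < p ∧ p ≤ X / a ∧ Pass D (a * p)}.ncard : ℝ) ≤
      z + ∑ n ∈ Icc 1 (X / a), ∏ q ∈ PI 0 z, (1 - hh D y a t q n) := by
  set A : Set ℕ := {p : ℕ | p.Prime ∧ t < p ∧ p ≤ X / a ∧ Pass D (a * p)} with hA
  set F : Finset ℕ := (Icc 1 (X / a)).filter (fun p => p ∈ A ∧ z < p) with hF
  have hsub : A ⊆ ((Icc 1 z ∪ F : Finset ℕ) : Set ℕ) := by
    intro p hp
    rw [mem_coe, mem_union, mem_Icc]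
    rcases Nat.lt_or_ge z p with h1 | h1
    · right
      rw [hF, mem_filter, mem_Icc]
      exact ⟨⟨hp.1.one_lt.le, hp.2.2.1⟩, hp, h1⟩
    · left
      exact ⟨hp.1.one_lt.le, h1⟩
  have hcard : (A.ncard : ℝ) ≤ z + F.card := by
    have h1 := Set.ncard_le_ncard hsub (Finset.finite_toSet _)
    rw [Set.ncard_coe_finset] at h1
    have h2 := h1.trans (Finset.card_union_le _ _)
    rw [Nat.card_Icc, Nat.add_sub_cancel] at h2
    exact_mod_cast h2
  refine hcard.trans (add_le_add le_rfl ?_)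
  rw [hF, Finset.card_filter]
  push_cast
  refine Finset.sum_le_sum fun p _ => ?_
  by_cases hm : p ∈ A ∧ z < p
  · rw [if_pos hm]
    apply le_of_eq
    symm
    apply Finset.prod_eq_one
    intro q hq
    obtain ⟨⟨hp, htp, -, hpass⟩, hzp⟩ := hm
    obtain ⟨⟨-, hqz⟩, hqp⟩ := mem_PI.1 hq
    have hz : hh D y a t q p = 0 := by
      unfold hh
      rw [if_neg]
      rintro (h1 | ⟨⟨-, h1, h2⟩, h3⟩)
      · have := (Nat.prime_dvd_prime_iff_eq hqp hp).1 h1
        omega
      · have hq2 : q ≠ 2 := by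
          rintro rfl
          exact h1 h.two
        have h4 := (ch_eq_neg_one_iff t q hqp hq2).1 h2
        have hE' : Ex D.c0 (a * p) t := by
          refine ⟨hE.1, hE.2.1, dvd_mul_of_dvd_left hE.2.2.1 _, fun h5 => hE.2.2.2 ?_⟩
          have hcop : Nat.Coprime (t ^ 2) p :=
            Nat.Coprime.pow_left 2 ((Nat.coprime_primes hE.1 hp).2 (by omega))
          exact hcop.dvd_of_dvd_mul_right h5
        exact hpass.1 t q _ hE' hqp h1 h3 h4
    rw [hz, sub_zero]
  · rw [if_neg hm]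
    apply Finset.prod_nonneg
    intro q _
    rcases hh01 D y a t q p with h1 | h1 <;> rw [h1] <;> norm_num

open scoped Classical in
/-- the sum of the means -/
theorem sum_low (mn : S_MN) {D : Dat} (h : Ax D) : ∃ C0 : ℝ, 0 ≤ C0 ∧ ∀ a t y z : ℕ, 3 ≤ z → 1 ≤ a →
    Real.log (Real.log z) + ∑ q ∈ (PI 0 z).filter (fun q => BD D y t q), D.ρ q / q -
      D.κ * Real.log (1 + a.primeFactors.card) - C0 ≤ ∑ q ∈ PI 0 z, mean D y a t q := by
  obtain ⟨C1, hC1, hm⟩ := mert_le
  obtain ⟨C2, hC2, hs⟩ := sum_sq_inv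
  have hκ : 0 ≤ D.κ := by linarith [h.κ1]
  refine ⟨C1 + D.κ * C2, by positivity, fun a t y z hz ha => ?_⟩
  have h1 := Finset.sum_le_sum (fun q (hq : q ∈ PI 0 z) => mean_low mn h y a t (mem_PI.1 hq).2)
  refine le_trans ?_ h1
  rw [Finset.sum_sub_distrib, Finset.sum_sub_distrib, Finset.sum_add_distrib, ← Finset.sum_filter,
    ← Finset.sum_filter, ← Finset.mul_sum, ← Finset.mul_sum]
  have h2 := (abs_le.1 (hm z hz)).1
  have h3 := mul_le_mul_of_nonneg_left (hs (PI 0 z)) hκ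
  have h4 : ∑ q ∈ (PI 0 z).filter (fun q => q ∣ a), (1 : ℝ) / q ≤
      Real.log (1 + a.primeFactors.card) := by
    refine le_trans ?_ (sum_inv_le a.primeFactors fun q hq => (Nat.prime_of_mem_primeFactors hq).two_le)
    refine Finset.sum_le_sum_of_subset_of_nonneg ?_ fun q _ _ => by positivity
    intro q hq
    rw [mem_filter] at hq
    exact Nat.mem_primeFactors.2 ⟨(mem_PI.1 hq.1).2, hq.2, by omega⟩
  have h5 := mul_le_mul_of_nonneg_left h4 hκ
  linarith

open scoped Classical in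
/-- Task CC of project HL. -/
theorem cc (sv : Pool.Agent.W114.PQ.S_SV) (mn : S_MN) (b1 : S_B1) : S_CC := by
  intro D h
  obtain ⟨C0, hC0, hlow⟩ := sum_low mn h
  obtain ⟨Cb, hCb, hbad⟩ := b1 D h
  have hκ1 := h.κ1
  obtain ⟨Cs, hCs, hsv⟩ := sv (2 * D.κ + 1) (by linarith)
  set K : ℝ := Real.log (2 * Cb) + 2 with hK
  have hlogCb : 0 < Real.log (2 * Cb) := Real.log_pos (by linarith)
  have hK1 : 1 ≤ K := by rw [hK]; linarith
  have hlogK : 0 ≤ Real.log K := Real.log_nonneg hK1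
  set C' : ℝ := C0 + Cb + 1 / 2 * Real.log K with hC'
  have hexp0 : 0 < Cs * Real.exp C' := by positivity
  refine ⟨Cs * Real.exp C' + 2 * Cs + 8, by linarith, ?_⟩
  intro w z X a t hw hwz hX ha haX ht hE
  have hz : 3 ≤ z := hw.trans hwz
  have hz3 : (3 : ℝ) ≤ z := by exact_mod_cast hz
  have hw3 : (3 : ℝ) ≤ w := by exact_mod_cast hw
  have hexp := Real.exp_one_lt_d9
  have hlz : 1 ≤ Real.log z := by
    rw [Real.le_log_iff_exp_le (by linarith)]; linarith
  have hlw : 1 ≤ Real.log w := by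
    rw [Real.le_log_iff_exp_le (by linarith)]; linarith
  have hllz : 0 ≤ Real.log (Real.log z) := Real.log_nonneg hlz
  have hllw : 0 ≤ Real.log (Real.log w) := Real.log_nonneg hlw
  have hL1 : Real.log z ≤ Real.log z * (1 + Real.log (Real.log z)) := by nlinarith
  have hX2 : (2 * Cs + 8) * (Real.log z * (1 + Real.log (Real.log z))) ≤ Real.log X := by
    refine le_trans ?_ hX
    rw [mul_assoc]
    apply mul_le_mul_of_nonneg_right _ (by positivity)
    linarith
  set LL : ℝ := Real.log z * (1 + Real.log (Real.log z)) with hLL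
  have hLL1 : 1 ≤ LL := hlz.trans hL1
  have hX8 : 8 * LL ≤ Real.log X :=
    (mul_le_mul_of_nonneg_right (by linarith) (by linarith)).trans hX2
  have hXpos : (1 : ℝ) < X := by
    by_contra hcon
    push Not at hcon
    have := Real.log_nonpos (Nat.cast_nonneg X) hcon
    linarith
  have haR : (1 : ℝ) ≤ a := by exact_mod_cast ha
  have hloga : 4 * Real.log a ≤ Real.log X := by
    have h1 : ((a : ℝ)) ^ 4 ≤ X := by exact_mod_cast haX
    have h2 := Real.log_le_log (by positivity) h1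
    rw [Real.log_pow] at h2
    exact_mod_cast h2
  have hXa0 : (0 : ℝ) < X / a := by positivity
  have hlogXa : 3 / 4 * Real.log X ≤ Real.log ((X : ℝ) / a) := by
    rw [Real.log_div (by linarith) (by linarith)]
    linarith
  -- the bound for `z`
  have hz3X : (z : ℝ) ^ 3 ≤ X / a := by
    rw [← Real.log_le_log_iff (by positivity) hXa0, Real.log_pow]
    push_cast
    linarith
  have hXa2 : (2 : ℝ) ≤ X / a := by
    have h01 := pow_le_pow_left₀ (by norm_num) hz3 3
    norm_num at h01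
    linarith
  have hN2 : (X : ℝ) / a / 2 ≤ ((X / a : ℕ) : ℝ) := by
    have h1 : (X : ℝ) / a < ((X / a : ℕ) : ℝ) + 1 := by
      rw [div_lt_iff₀ (by linarith)]
      have := Nat.lt_mul_div_succ X ha
      rw [mul_comm]
      exact_mod_cast this
    linarith
  have hNle : ((X / a : ℕ) : ℝ) ≤ X / a := Nat.cast_div_le
  have hlog2 : Real.log 2 ≤ 1 := by
    have := Real.log_two_lt_d9
    linarith
  have hlogN : Cs * Real.log z * (1 + Real.log (Real.log z)) ≤ Real.log ((X / a : ℕ) : ℝ) := by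
    have h1 : Real.log ((X : ℝ) / a / 2) ≤ Real.log ((X / a : ℕ) : ℝ) :=
      Real.log_le_log (by positivity) hN2
    rw [Real.log_div hXa0.ne' (by norm_num)] at h1
    rw [mul_assoc, ← hLL]
    nlinarith
  -- `y`
  set y : ℕ := ⌈Cb * (t : ℝ) ^ 2⌉₊ with hy
  have ht2 : (2 : ℝ) ≤ t := by exact_mod_cast hE.1.two_le
  have htw : (t : ℝ) ≤ w := by exact_mod_cast ht
  have hy1 : Cb * (t : ℝ) ^ 2 ≤ y := Nat.le_ceil _
  have hy2 : (y : ℝ) < Cb * (t : ℝ) ^ 2 + 1 := Nat.ceil_lt_add_one (by positivity)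
  have hyr : (3 : ℝ) ≤ y := by
    have h01 : (1 : ℝ) ≤ (t : ℝ) ^ 2 := one_le_pow₀ (by linarith)
    have h02 : Cb * 1 ≤ Cb * (t : ℝ) ^ 2 := mul_le_mul_of_nonneg_left h01 (by linarith)
    linarith
  have hlogy0 : 0 < Real.log y := Real.log_pos (by linarith)
  have hlogy : Real.log y ≤ K * Real.log w := by
    have h0 : (t : ℝ) ^ 2 ≤ (w : ℝ) ^ 2 := pow_le_pow_left₀ (by linarith) htw 2
    have h1 : (y : ℝ) ≤ 2 * Cb * (w : ℝ) ^ 2 := by
      have h01 : Cb * (t : ℝ) ^ 2 ≤ Cb * (w : ℝ) ^ 2 := mul_le_mul_of_nonneg_left h0 (by linarith)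
      have h02 : (1 : ℝ) ≤ (w : ℝ) ^ 2 := one_le_pow₀ (by linarith)
      have h03 : (1 : ℝ) ≤ Cb * (w : ℝ) ^ 2 := by
        calc (1 : ℝ) = 1 * 1 := by norm_num
          _ ≤ Cb * (w : ℝ) ^ 2 := mul_le_mul (by linarith) h02 (by norm_num) (by linarith)
      linarith
    have h2 : Real.log y ≤ Real.log (2 * Cb * (w : ℝ) ^ 2) := Real.log_le_log (by linarith) h1
    rw [Real.log_mul (by positivity) (by positivity), Real.log_pow] at h2
    rw [hK, add_mul]
    push_cast at h2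
    have h3 : Real.log (2 * Cb) ≤ Real.log (2 * Cb) * Real.log w :=
      le_mul_of_one_le_right hlogCb.le hlw
    linarith
  have hlly : Real.log (Real.log y) ≤ Real.log K + Real.log (Real.log w) := by
    rw [← Real.log_mul (by linarith) (by linarith)]
    exact Real.log_le_log hlogy0 hlogy
  -- the sum of the means
  set om : ℝ := (a.primeFactors.card : ℝ) with hom
  have hom0 : 0 ≤ om := Nat.cast_nonneg _
  have hsum := hlow a t y z hz ha
  rw [← hom] at hsum
  have hmain : 3 / 2 * Real.log (Real.log z) - 1 / 2 * Real.log (Real.log w) -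
      D.κ * Real.log (1 + om) - C' ≤ ∑ q ∈ PI 0 z, mean D y a t q := by
    rcases Nat.lt_or_ge z y with hzy | hyz
    · have h3 : Real.log (Real.log z) ≤ Real.log (Real.log y) := by
        apply Real.log_le_log (by linarith)
        apply Real.log_le_log (by linarith)
        exact_mod_cast hzy.le
      have h4 : 0 ≤ ∑ q ∈ (PI 0 z).filter (fun q => BD D y t q), D.ρ q / q :=
        Finset.sum_nonneg fun q _ => div_nonneg (h.rho_up q).1 (Nat.cast_nonneg q)
      rw [hC']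
      linarith
    · have h2 := hbad t hE.1 y z hy1 hyz
      rw [Real.log_div (by linarith) hlogy0.ne'] at h2
      have h3 : (PI y z).filter (fun q => ¬ q ∣ D.c0 ∧ ch (t : ℤ) q = -1) =
          (PI 0 z).filter (fun q => BD D y t q) := by
        ext q
        simp only [mem_filter, mem_PI, BD]
        constructor
        · rintro ⟨⟨⟨h4, h5⟩, h6⟩, h7, h8⟩
          exact ⟨⟨⟨by omega, h5⟩, h6⟩, h4, h7, h8⟩
        · rintro ⟨⟨⟨_, h5⟩, h6⟩, h4, h7, h8⟩
          exact ⟨⟨⟨h4, h5⟩, h6⟩, h7, h8⟩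
      rw [h3] at h2
      rw [hC']
      linarith
  have hexpo : Real.exp (-∑ q ∈ PI 0 z, mean D y a t q) ≤ Real.exp C' *
      ((1 + om) ^ D.κ * (Real.log w) ^ (1 / 2 : ℝ) * (Real.log z) ^ (-(3 / 2) : ℝ)) := by
    rw [Real.rpow_def_of_pos (by linarith), Real.rpow_def_of_pos (by linarith),
      Real.rpow_def_of_pos (by linarith), ← Real.exp_add, ← Real.exp_add, ← Real.exp_add]
    apply Real.exp_le_exp.2
    linarith
  have hs : ∑ n ∈ Icc 1 (X / a), ∏ q ∈ PI 0 z, (1 - hh D y a t q n) ≤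
      Cs * ((X / a : ℕ) : ℝ) * Real.exp (-∑ q ∈ PI 0 z, mean D y a t q) :=
    hsv z (X / a) hz hlogN (PI 0 z) (hh D y a t) (fun q hq => ⟨(mem_PI.1 hq).2, (mem_PI.1 hq).1.2⟩)
      (fun q _ n => hh01 D y a t q n) (fun q hq n => hh_per h y a t n (mem_PI.1 hq).2)
      (fun q hq => mean_up mn h y a t (mem_PI.1 hq).2)
  refine (sift h X a t y z hE).trans ?_
  have hA1 : (1 : ℝ) ≤ (1 + om) ^ D.κ := Real.one_le_rpow (by linarith) (by linarith)
  have hA2 : (1 : ℝ) ≤ (Real.log w) ^ (1 / 2 : ℝ) := Real.one_le_rpow hlw (by norm_num)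
  have hA3 : (0 : ℝ) < (Real.log z) ^ (-(3 / 2) : ℝ) := Real.rpow_pos_of_pos (by linarith) _
  have hzb : (z : ℝ) ≤ (X / a) * (Real.log z) ^ (-(3 / 2) : ℝ) := by
    rw [Real.rpow_neg (by linarith), ← div_eq_mul_inv, le_div_iff₀ (Real.rpow_pos_of_pos (by linarith) _)]
    have h1 : (Real.log z) ^ (3 / 2 : ℝ) ≤ (Real.log z) ^ (2 : ℝ) :=
      Real.rpow_le_rpow_of_exponent_le hlz (by norm_num)
    have h2 : (Real.log z) ^ (2 : ℝ) ≤ (z : ℝ) ^ 2 := by
      rw [Real.rpow_two]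
      apply pow_le_pow_left₀ (by linarith)
      have := Real.log_le_sub_one_of_pos (show (0 : ℝ) < z by linarith)
      linarith
    calc (z : ℝ) * (Real.log z) ^ (3 / 2 : ℝ) ≤ z * (z : ℝ) ^ 2 := by
          apply mul_le_mul_of_nonneg_left (h1.trans h2) (by linarith)
      _ = (z : ℝ) ^ 3 := by ring
      _ ≤ _ := hz3X
  set R : ℝ := (1 + om) ^ D.κ * (Real.log w) ^ (1 / 2 : ℝ) * (Real.log z) ^ (-(3 / 2) : ℝ) with hR
  have hR3 : (Real.log z) ^ (-(3 / 2) : ℝ) ≤ R := by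
    rw [hR]
    have h1 : 1 * 1 ≤ (1 + om) ^ D.κ * (Real.log w) ^ (1 / 2 : ℝ) :=
      mul_le_mul hA1 hA2 (by norm_num) (by linarith)
    rw [one_mul] at h1
    exact le_mul_of_one_le_left hA3.le h1
  have hR0 : 0 < R := lt_of_lt_of_le hA3 hR3
  have hgoal : (Cs * Real.exp C' + 2 * Cs + 8) * (1 + om) ^ D.κ * (X / a) *
      (Real.log w) ^ (1 / 2 : ℝ) * (Real.log z) ^ (-(3 / 2) : ℝ) =
      (Cs * Real.exp C' + 2 * Cs + 8) * ((X / a) * R) := by
    rw [hR]; ring
  rw [hgoal]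
  have h5 : (z : ℝ) ≤ (X / a) * R := hzb.trans (mul_le_mul_of_nonneg_left hR3 hXa0.le)
  have h6 : Cs * ((X / a : ℕ) : ℝ) * Real.exp (-∑ q ∈ PI 0 z, mean D y a t q) ≤
      (Cs * Real.exp C') * ((X / a) * R) := by
    calc Cs * ((X / a : ℕ) : ℝ) * Real.exp (-∑ q ∈ PI 0 z, mean D y a t q) ≤
        Cs * (X / a) * (Real.exp C' * R) := by
          gcongr
      _ = _ := by ring
  have h7 : 0 ≤ (X / a) * R := by positivity
  have h8 := hs.trans h6
  have h9 : 0 ≤ Cs * ((X / a) * R) := mul_nonneg (by linarith) h7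
  have h10 : (Cs * Real.exp C' + 2 * Cs + 8) * ((X / a) * R) =
      (Cs * Real.exp C') * ((X / a) * R) + 2 * (Cs * ((X / a) * R)) + 8 * ((X / a) * R) := by ring
  rw [h10]
  linarith

end Pool.Agent.W948.HL.CC
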